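import Pool.Agent.MP_74e98a_nt.H93.Defs
import Pool.Agent.MP_6f2ed2_nt.H1.Assemble

/-! From windows to the full cubic moment. -/

namespace Pool.Agent.MP_74e98a_nt.H87

open MeasureTheory Filter Pool.Agent.MP_6f2ed2_nt.H1 Pool.Agent.MP_74e98a_nt.H93

theorem windows {f : ℝ → ℝ} (hf : Continuous f) (T : ℝ) {H : ℝ} (hH : 0 < H) (n : ℕ) :
    ∫ t in T..(T + n * H), f t =
      ∑ j ∈ Finset.range (n + 1), (∫ t in (T + j * H - H)..(T + j * H + H),
        tri (T + j * H) H t * f t) - (∫ t in (T - H)..T, tri T H t * f t) -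
        ∫ t in (T + n * H)..(T + n * H + H), tri (T + n * H) H t * f t := by
  have hi : ∀ w a b, IntervalIntegrable (fun t => tri w H t * f t) volume a b := fun w a b =>
    ((continuous_tri w H).mul hf).intervalIntegrable a b
  induction n with
  | zero =>
    simp only [Nat.cast_zero, zero_mul, add_zero, intervalIntegral.integral_same, zero_add,
      Finset.sum_range_one]
    rw [← intervalIntegral.integral_add_adjacent_intervals (hi T (T - H) T) (hi T T (T + H))]
    ring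
  | succ n ih =>
    have e1 : T + ((n + 1 : ℕ) : ℝ) * H = T + n * H + H := by push_cast; ring
    rw [Finset.sum_range_succ, e1, ← intervalIntegral.integral_add_adjacent_intervals
      (hf.intervalIntegrable T (T + n * H)) (hf.intervalIntegrable _ _), ih, add_sub_cancel_right,
      ← intervalIntegral.integral_add_adjacent_intervals (hi _ (T + n * H) (T + n * H + H))
        (hi _ _ (T + n * H + H + H))]
    have e2 : ∫ t in (T + n * H)..(T + n * H + H), f t =
        (∫ t in (T + n * H)..(T + n * H + H), tri (T + n * H) H t * f t) +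
        ∫ t in (T + n * H)..(T + n * H + H), tri (T + n * H + H) H t * f t := by
      rw [← intervalIntegral.integral_add (hi _ _ _) (hi _ _ _)]
      refine intervalIntegral.integral_congr fun t ht => ?_
      rw [Set.uIcc_of_le (by linarith)] at ht
      have a1 : |t - (T + n * H)| / H ≤ 1 := by
        rw [div_le_one hH, abs_of_nonneg (by linarith [ht.1])]; linarith [ht.2]
      have a2 : |t - (T + n * H + H)| / H ≤ 1 := by
        rw [div_le_one hH, abs_of_nonpos (by linarith [ht.2])]; linarith [ht.1]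
      simp only [tri]
      rw [max_eq_right (by linarith), max_eq_right (by linarith),
        abs_of_nonneg (by linarith [ht.1]), abs_of_nonpos (by linarith [ht.2])]
      field_simp
      ring
    rw [e2]
    ring

theorem cube_le {M R : ℝ} (hM : 0 ≤ M) (hR : 0 < R) : M ^ 3 ≤ R ^ 3 + M ^ 4 / R := by
  rcases le_total M R with h | h
  · have := pow_le_pow_left₀ hM h 3
    have : 0 ≤ M ^ 4 / R := by positivity
    linarith
  · have : M ^ 3 ≤ M ^ 4 / R := by
      rw [le_div_iff₀ hR, pow_succ M 3]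
      gcongr
    have : 0 ≤ R ^ 3 := by positivity
    linarith

theorem third (h4 : FourthStmt) {ρ : ℝ} (hρ : 0 < ρ) :
    ∃ D : ℝ, 0 ≤ D ∧ ∀ᶠ T : ℝ in atTop,
    ∀ a b : ℝ, a ≤ b → b - a ≤ 2 * T ^ (1 - ρ) →
      ∫ t in a..b, (1 + Maj (NN T) t) ^ 3 ≤ D * T ^ (1 - ρ / 8) := by
  obtain ⟨C, hC⟩ := h4 (ρ / 8) (by positivity)
  refine ⟨2 + |C| * (2 + 4 * Real.exp 11 ^ 2), by positivity, ?_⟩
  filter_upwards [eventually_ge_atTop (1 : ℝ), eventually_ge_atTop ((3 * Real.exp 11) ^ 2)]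
    with T h1 h2 a b hab hl
  have hT : 0 < T := by linarith
  have hs : 3 * Real.exp 11 ≤ Real.sqrt T := Real.le_sqrt_of_sq_le h2
  have he : 1 ≤ Real.exp 11 := Real.one_le_exp (by norm_num)
  have hss : Real.sqrt T * Real.sqrt T = T := Real.mul_self_sqrt hT.le
  have hN : (NN T : ℝ) ≤ Real.exp 11 * Real.sqrt T + 1 :=
    (Nat.ceil_lt_add_one (by positivity)).le
  have hE : 1 ≤ Real.exp 11 * Real.sqrt T := by nlinarith
  have hN1 : (NN T : ℝ) + 1 ≤ T := by nlinarith
  have hN2 : (NN T : ℝ) ^ 2 ≤ 4 * Real.exp 11 ^ 2 * T := by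
    have : (NN T : ℝ) ≤ 2 * (Real.exp 11 * Real.sqrt T) := by linarith
    calc (NN T : ℝ) ^ 2 ≤ (2 * (Real.exp 11 * Real.sqrt T)) ^ 2 := by gcongr
      _ = 4 * Real.exp 11 ^ 2 * (Real.sqrt T * Real.sqrt T) := by ring
      _ = _ := by rw [hss]
  have hR : 0 < T ^ (ρ / 4) := Real.rpow_pos_of_pos hT _
  have hM : Continuous fun t => 1 + Maj (NN T) t := continuous_const.add (continuous_Maj _)
  have s1 : ∫ t in a..b, (1 + Maj (NN T) t) ^ 3 ≤
      ∫ t in a..b, ((T ^ (ρ / 4)) ^ 3 + (1 + Maj (NN T) t) ^ 4 / T ^ (ρ / 4)) :=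
    intervalIntegral.integral_mono_on hab ((hM.pow 3).intervalIntegrable _ _)
      ((continuous_const.add ((hM.pow 4).div_const _)).intervalIntegrable _ _) fun t _ =>
        cube_le (by linarith [Maj_nonneg (NN T) t]) hR
  have hM4 : Continuous fun t => (1 + Maj (NN T) t) ^ 4 / T ^ (ρ / 4) := (hM.pow 4).div_const _
  rw [intervalIntegral.integral_add intervalIntegrable_const
    (hM4.intervalIntegrable _ _), intervalIntegral.integral_const,
    intervalIntegral.integral_div, smul_eq_mul] at s1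
  have s2 : (b - a) * (T ^ (ρ / 4)) ^ 3 ≤ 2 * T ^ (1 - ρ / 8) := by
    calc (b - a) * (T ^ (ρ / 4)) ^ 3 ≤ 2 * T ^ (1 - ρ) * (T ^ (ρ / 4)) ^ 3 := by gcongr
      _ = 2 * T ^ (1 - ρ / 4) := by
        rw [← Real.rpow_natCast, ← Real.rpow_mul hT.le, mul_assoc, ← Real.rpow_add hT]
        congr 2
        push_cast
        ring
      _ ≤ _ := by gcongr; linarith
  have s3 : T ^ (1 - ρ) ≤ T := by
    simpa using Real.rpow_le_rpow_of_exponent_le h1 (show 1 - ρ ≤ 1 by linarith)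
  have s4 : (∫ t in a..b, (1 + Maj (NN T) t) ^ 4) / T ^ (ρ / 4) ≤
      |C| * (2 + 4 * Real.exp 11 ^ 2) * T ^ (1 - ρ / 8) := by
    rw [div_le_iff₀ hR]
    calc _ ≤ C * ((NN T : ℝ) + 1) ^ (ρ / 8) * (b - a + (NN T : ℝ) ^ 2) := hC _ a b hab
      _ ≤ |C| * T ^ (ρ / 8) * ((2 + 4 * Real.exp 11 ^ 2) * T) := by
        have : 0 ≤ b - a := by linarith
        gcongr
        · exact le_abs_self C
        · linarith
      _ = |C| * (2 + 4 * Real.exp 11 ^ 2) * (T ^ (ρ / 8) * T ^ (1 : ℝ)) := by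
        rw [Real.rpow_one]; ring
      _ = _ := by
        rw [mul_assoc (|C| * _), ← Real.rpow_add hT, ← Real.rpow_add hT]
        congr 2
        ring
  linarith

theorem dyadic (hW : WinStmt) (h4 : FourthStmt) : ∃ c K : ℝ, 0 < c ∧ c < 1 ∧ 0 ≤ K ∧
    ∀ᶠ T : ℝ in atTop, |∫ t in T..(2 * T), hardyZ t ^ 3| ≤ K * T ^ c := by
  obtain ⟨C, κ, T0, hκ, hW⟩ := hW
  obtain ⟨ρ, hρ, hρ1, hρ2⟩ : ∃ ρ : ℝ, 0 < ρ ∧ ρ ≤ κ / 2 ∧ ρ ≤ 1 / 9 :=
    ⟨min (κ / 2) (1 / 9), lt_min (by linarith) (by norm_num), min_le_left _ _, min_le_right _ _⟩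
  obtain ⟨D, hD, h3⟩ := third h4 hρ
  refine ⟨1 - ρ / 8, 3 * |C| + 2 * |C| * D + 2 * |C| ^ 3 * D, by linarith, by linarith,
    by positivity, ?_⟩
  filter_upwards [h3, eventually_ge_atTop T0, eventually_ge_atTop (1 : ℝ),
    (tendsto_rpow_atTop hρ).eventually_ge_atTop 10,
    (tendsto_rpow_atTop (show (0 : ℝ) < 1 / 72 by norm_num)).eventually_ge_atTop 2]
    with T h3 h0 h1 h10 h72
  obtain ⟨hZ, hW⟩ := hW T h0
  have hT : 0 < T := by linarith
  obtain ⟨J, hJ1, hJ2⟩ : ∃ J : ℕ, T ^ ρ ≤ J ∧ (J : ℝ) ≤ T ^ ρ + 1 :=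
    ⟨⌈T ^ ρ⌉₊, Nat.le_ceil _, (Nat.ceil_lt_add_one (by positivity)).le⟩
  have hJ : (0 : ℝ) < J := by linarith
  obtain ⟨H, hH⟩ : ∃ H : ℝ, H = T / J := ⟨_, rfl⟩
  have hH0 : 0 < H := hH ▸ div_pos hT hJ
  have hJH : (J : ℝ) * H = T := by rw [hH]; field_simp
  have hH1 : H ≤ T / 10 := by rw [hH]; gcongr; linarith
  have hH2 : H ≤ T ^ (1 - ρ) := by
    rw [hH, Real.rpow_sub hT, Real.rpow_one]; gcongr
  have hH3 : T ^ (7 / 8 : ℝ) ≤ H := by
    rw [hH, le_div_iff₀ hJ]
    calc T ^ (7 / 8 : ℝ) * J ≤ T ^ (7 / 8 : ℝ) * (T ^ (1 / 72 : ℝ) * T ^ ρ) := by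
          gcongr; nlinarith
      _ = T ^ (7 / 8 + (1 / 72 + ρ)) := by rw [Real.rpow_add hT, Real.rpow_add hT]
      _ ≤ T ^ (1 : ℝ) := Real.rpow_le_rpow_of_exponent_le h1 (by linarith)
      _ = T := Real.rpow_one T
  have hc : Continuous fun t => hardyZ t ^ 3 := continuous_hardyZ.pow 3
  have hM : Continuous fun t => 1 + Maj (NN T) t := continuous_const.add (continuous_Maj _)
  have hP : 0 < T ^ (1 - ρ / 8) := Real.rpow_pos_of_pos hT _
  have edge : ∀ w a b : ℝ, T / 2 ≤ a → a ≤ b → b ≤ 4 * T → b - a ≤ H →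
      |∫ t in a..b, tri w H t * hardyZ t ^ 3| ≤ |C| ^ 3 * D * T ^ (1 - ρ / 8) := by
    intro w a b ha hab hb hl
    calc _ ≤ ∫ t in a..b, |tri w H t * hardyZ t ^ 3| := intervalIntegral.abs_integral_le_integral_abs hab
      _ ≤ ∫ t in a..b, |C| ^ 3 * (1 + Maj (NN T) t) ^ 3 := by
        refine intervalIntegral.integral_mono_on hab
          (((continuous_tri w H).mul hc).abs.intervalIntegrable _ _)
          ((continuous_const.mul (hM.pow 3)).intervalIntegrable _ _) fun t ht => ?_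
        have b1 : |hardyZ t| ≤ |C| * (1 + Maj (NN T) t) :=
          (hZ t (ha.trans ht.1) (ht.2.trans hb)).trans (mul_le_mul_of_nonneg_right (le_abs_self C)
            (by linarith [Maj_nonneg (NN T) t]))
        rw [abs_mul, abs_pow, ← mul_pow, abs_of_nonneg (tri_nonneg _ _ _)]
        calc _ ≤ 1 * (|C| * (1 + Maj (NN T) t)) ^ 3 := by
              gcongr
              exact tri_le_one w t hH0.le
          _ = _ := one_mul _
      _ ≤ _ := by
        rw [intervalIntegral.integral_const_mul, mul_assoc]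
        gcongr
        exact h3 a b hab (by linarith)
  have win : ∀ j ∈ Finset.range (J + 1), |∫ t in (T + j * H - H)..(T + j * H + H),
      tri (T + j * H) H t * hardyZ t ^ 3| ≤
        |C| * T ^ (1 - κ) + |C| * (1 / J) * (D * T ^ (1 - ρ / 8)) := by
    intro j hj
    have hj' : (j : ℝ) ≤ J := by exact_mod_cast Nat.lt_succ_iff.1 (Finset.mem_range.1 hj)
    have b1 : 0 ≤ (j : ℝ) * H := by positivity
    have b2 : (j : ℝ) * H ≤ J * H := by gcongr
    refine (hW _ H (by linarith) (by linarith) hH3 hH1).trans ?_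
    have b3 : H / T = 1 / J := by rw [hH]; field_simp
    have b4 : 0 ≤ ∫ t in (T + j * H - H)..(T + j * H + H), (1 + Maj (NN T) t) ^ 3 :=
      intervalIntegral.integral_nonneg (by linarith) fun t _ =>
        pow_nonneg (by linarith [Maj_nonneg (NN T) t]) 3
    rw [b3]
    gcongr
    · exact le_abs_self C
    · exact le_abs_self C
    · exact h3 _ _ (by linarith) (by linarith)
  have hw := windows hc T hH0 J
  have e2 : T + J * H = 2 * T := by linarith
  have s1 := (Finset.abs_sum_le_sum_abs _ _).trans (Finset.sum_le_sum win)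
  rw [Finset.sum_const, Finset.card_range, nsmul_eq_mul] at s1
  have s2 := edge T (T - H) T (by linarith) (by linarith) (by linarith) (by linarith)
  have s3 := edge (T + J * H) (T + J * H) (T + J * H + H) (by linarith) (by linarith)
    (by linarith) (by linarith)
  have s4 : ((J + 1 : ℕ) : ℝ) * T ^ (1 - κ) ≤ 3 * T ^ (1 - ρ / 8) := by
    calc ((J + 1 : ℕ) : ℝ) * T ^ (1 - κ) ≤ 3 * T ^ ρ * T ^ (1 - κ) := by
          gcongr; push_cast; linarith
      _ = 3 * T ^ (ρ + (1 - κ)) := by rw [Real.rpow_add hT, mul_assoc]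
      _ ≤ _ := by gcongr; linarith
  have s5 : ((J + 1 : ℕ) : ℝ) * (1 / J) ≤ 2 := by
    rw [mul_one_div, div_le_iff₀ hJ]; push_cast; linarith
  have s6 : ((J + 1 : ℕ) : ℝ) * (|C| * T ^ (1 - κ) + |C| * (1 / J) * (D * T ^ (1 - ρ / 8))) ≤
      |C| * (3 * T ^ (1 - ρ / 8)) + |C| * 2 * (D * T ^ (1 - ρ / 8)) := by
    calc _ = |C| * (((J + 1 : ℕ) : ℝ) * T ^ (1 - κ)) +
          |C| * (((J + 1 : ℕ) : ℝ) * (1 / J)) * (D * T ^ (1 - ρ / 8)) := by ring
      _ ≤ _ := by gcongr
  rw [← e2, hw]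
  refine (abs_sub _ _).trans ((add_le_add (abs_sub _ _) le_rfl).trans ?_)
  linarith

theorem final (hW : WinStmt) (h4 : FourthStmt) : MainStmt := by
  obtain ⟨c, K, hc0, hc1, hK, h⟩ := dyadic hW h4
  obtain ⟨T1, hT1⟩ := eventually_atTop.1 (h.and (eventually_ge_atTop (1 : ℝ)))
  have h1 : 1 ≤ T1 := (hT1 T1 le_rfl).2
  have hc : Continuous fun t => hardyZ t ^ 3 := continuous_hardyZ.pow 3
  have h2 : (1 : ℝ) < 2 ^ c := Real.one_lt_rpow (by norm_num) hc0
  obtain ⟨B, hB⟩ : ∃ B, B = ∫ t in (0 : ℝ)..(2 * T1), |hardyZ t ^ 3| := ⟨_, rfl⟩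
  have hB0 : 0 ≤ B := hB ▸ intervalIntegral.integral_nonneg (by linarith) fun t _ => abs_nonneg _
  obtain ⟨L, hL⟩ : ∃ L, L = K / (2 ^ c - 1) := ⟨_, rfl⟩
  have hL0 : 0 ≤ L := hL ▸ div_nonneg hK (by linarith)
  have hL1 : L * (2 ^ c - 1) = K := by rw [hL]; exact div_mul_cancel₀ _ (by linarith)
  have base : ∀ T : ℝ, 1 ≤ T → T ≤ 2 * T1 → |∫ t in (0 : ℝ)..T, hardyZ t ^ 3| ≤ (B + L) * T ^ c := by
    intro T a b
    have b1 : |∫ t in (0 : ℝ)..T, hardyZ t ^ 3| ≤ B :=
      (intervalIntegral.abs_integral_le_integral_abs (by linarith)).trans (hB ▸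
        intervalIntegral.integral_mono_interval le_rfl (by linarith) b
          (Eventually.of_forall fun t => abs_nonneg _) (hc.abs.intervalIntegrable _ _))
    have b2 : 1 ≤ T ^ c := Real.one_le_rpow a hc0.le
    nlinarith
  have key : ∀ (n : ℕ) (T : ℝ), 1 ≤ T → T ≤ 2 * T1 * 2 ^ n →
      |∫ t in (0 : ℝ)..T, hardyZ t ^ 3| ≤ (B + L) * T ^ c := by
    intro n
    induction n with
    | zero => exact fun T a b => base T a (by simpa using b)
    | succ n ih =>
      intro T a b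
      rcases le_total T (2 * T1) with d | d
      · exact base T a d
      have b1 := ih (T / 2) (by linarith) (by rw [pow_succ] at b; linarith)
      have b2 := (hT1 (T / 2) (by linarith)).1
      have b3 : T ^ c = 2 ^ c * (T / 2) ^ c := by
        rw [← Real.mul_rpow (by norm_num) (by linarith)]
        congr 1
        ring
      have b4 : 0 ≤ (T / 2) ^ c := by positivity
      rw [show 2 * (T / 2) = T by ring] at b2
      rw [← intervalIntegral.integral_add_adjacent_intervals (hc.intervalIntegrable 0 (T / 2))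
        (hc.intervalIntegrable _ T), b3]
      refine (abs_add_le _ _).trans ?_
      have b5 : 0 ≤ B * (2 ^ c - 1) * (T / 2) ^ c := by
        have : 0 ≤ (2 : ℝ) ^ c - 1 := by linarith
        positivity
      rw [← hL1] at b2
      nlinarith
  refine ⟨c, hc1, B + L, fun T hT => ?_⟩
  obtain ⟨n, hn⟩ := pow_unbounded_of_one_lt T (show (1 : ℝ) < 2 by norm_num)
  have : (0 : ℝ) < 2 ^ n := by positivity
  exact key n T hT (by nlinarith)

end Pool.Agent.MP_74e98a_nt.H87
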